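import Mathlib
import Pool.Agent.Lib.MP_f9389f_co.SC.All

set_option autoImplicit false

namespace Pool.Agent.Results.MP_f9389f_co.Annuli

open Pool.Agent.Lib.MP_f9389f_co

universe u

/-- The coarse Kuratowski conjecture for the locally finite connected graphs whose spheres about
some vertex are connected inside annuli of bounded width (for example, those whose cycle space is
generated by cycles of bounded length); only the fat `K₃,₃` minor has to be excluded. -/
theorem result (K s : ℕ) : ∃ M A : ℕ, 1 ≤ M ∧
    ∀ (V : Type u) (G : SimpleGraph V), G.Connected → (∀ v, (G.neighborSet v).Finite) →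
      (∃ o, AnnConn G o s) →
      ¬ HasFatMinor G (completeBipartiteGraph (Fin 3) (Fin 3)) K →
      ∃ (W : Type) (G' : SimpleGraph W) (φ : V → W),
        Countable W ∧ G'.Connected ∧ IsQI G G' φ M A ∧
        ¬ HasMinor G' (⊤ : SimpleGraph (Fin 5)) ∧
        ¬ HasMinor G' (completeBipartiteGraph (Fin 3) (Fin 3)) :=
  SC.main K s

end Pool.Agent.Results.MP_f9389f_co.Annuli
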