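import Mathlib
import Pool.Agent.Lib.MP_f9389f_co.CbMain

set_option autoImplicit false

namespace Pool.Agent.Results.MP_f9389f_co.Combable

open Pool.Agent.Lib.MP_f9389f_co

universe u

/-- The coarse Kuratowski conjecture for the connected graphs that are quasi-isometric to a graph
with a geodesic combing; only the fat `K₃,₃` minor has to be excluded. -/
theorem result (K c M₀ A₀ : ℕ) (hM₀ : 1 ≤ M₀) : ∃ M A : ℕ, 1 ≤ M ∧
    ∀ (V : Type u) (G : SimpleGraph V), G.Connected →
      (∃ (V₀ : Type u) (G₀ : SimpleGraph V₀) (f : V → V₀),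
        G₀.Connected ∧ HasCombing G₀ c ∧ IsQI G G₀ f M₀ A₀) →
      ¬ HasFatMinor G (completeBipartiteGraph (Fin 3) (Fin 3)) K →
      ∃ (W : Type u) (G' : SimpleGraph W) (φ : V → W),
        G'.Connected ∧ Function.Surjective φ ∧ IsQI G G' φ M A ∧
        ¬ HasMinor G' (⊤ : SimpleGraph (Fin 5)) ∧
        ¬ HasMinor G' (completeBipartiteGraph (Fin 3) (Fin 3)) :=
  combable_main K c M₀ A₀ hM₀

end Pool.Agent.Results.MP_f9389f_co.Combable
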