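import Mathlib
import Pool.Agent.Lib.MP_f9389f_co.DbMain

set_option autoImplicit false

namespace Pool.Agent.Results.MP_f9389f_co.Doubling

open Pool.Agent.Lib.MP_f9389f_co

universe u v

/-- The fat minor conjecture, simultaneously for all graphs `H`, for the connected graphs that are
doubling at one sufficiently large scale `r`. -/
theorem result (K N : ℕ) : ∃ r₀ : ℕ, ∀ r, r₀ ≤ r → ∃ M A : ℕ, 1 ≤ M ∧
    ∀ (V : Type u) (G : SimpleGraph V), G.Connected → Covered G N r (44 * r) →
      ∃ (W : Type u) (G' : SimpleGraph W) (φ : V → W), G'.Connected ∧ IsQI G G' φ M A ∧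
        ∀ (ι : Type v) (H : SimpleGraph ι), ¬ HasFatMinor G H K → ¬ HasMinor G' H :=
  Db.doubling_main K N

end Pool.Agent.Results.MP_f9389f_co.Doubling
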