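import Mathlib
import Pool.Agent.Lib.MP_f9389f_co.Main

set_option autoImplicit false

namespace Pool.Agent.Results.MP_f9389f_co.ForestBalls

open Pool.Agent.Lib.MP_f9389f_co

universe u

/-- The fat minor conjecture, simultaneously for all graphs `H` on at most `n` vertices, for the
connected graphs that become forests after deleting `r` balls of radius `R`. -/
theorem result (n K r R : ℕ) : ∃ M A : ℕ, 1 ≤ M ∧
    ∀ (V : Type u) (G : SimpleGraph V), G.Connected →
      ∀ x : Fin r → V, (G.induce {v | ∀ i, R < G.dist (x i) v}).IsAcyclic →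
        ∃ (W : Type u) (G' : SimpleGraph W) (φ : V → W),
          G'.Connected ∧ Function.Surjective φ ∧ IsQI G G' φ M A ∧
          ∀ (ι : Type) [Fintype ι] (H : SimpleGraph ι), Fintype.card ι ≤ n →
            ¬ HasFatMinor G H K → ¬ HasMinor G' H :=
  main n K r R

end Pool.Agent.Results.MP_f9389f_co.ForestBalls
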